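import Pool.Agent.R974.BW.Defs

/-!
Piece CNV of project BW (helper974): finite-dimensional laws determine the law.
-/

set_option autoImplicit false

namespace Pool.Agent.R883.BWCnv

open MeasureTheory ProbabilityTheory Filter Topology Set
open Pool.Agent.R967.FB Pool.Agent.R974.BW
open scoped ENNReal NNReal BoundedContinuousFunction

/-- the times -/
abbrev TT := Icc (0 : ℝ≥0) 1

/-- the list of time increments -/
def mkL (φ : TT → ℝ → ℝ≥0∞) : ℝ≥0 → List TT → List (ℝ≥0 × (ℝ → ℝ≥0∞))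
  | _, [] => []
  | s, t :: l => ((t : ℝ≥0) - s, φ t) :: mkL φ t l

lemma ext01_coe (x : TT → ℝ) (t : TT) : ext01 x (t : ℝ≥0) = x t := by
  unfold ext01
  congr 1
  apply Subtype.ext
  exact min_eq_left t.2.2

lemma PP_mkL (φ : TT → ℝ → ℝ≥0∞) (x : TT → ℝ) (l : List TT) : ∀ (s : ℝ≥0),
    (∀ t ∈ l, s < t) → l.Pairwise (· < ·) →
    PP (mkL φ s l) s (ext01 x) = (l.map (fun t => φ t (x t))).prod := by
  induction l with
  | nil => intro s _ _; rfl
  | cons t l ih =>
    intro s hs hl
    have h1 : s < t := hs t List.mem_cons_self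
    have h2 : s + ((t : ℝ≥0) - s) = t := add_tsub_cancel_of_le h1.le
    show φ t (ext01 x (s + ((t : ℝ≥0) - s))) * PP (mkL φ t l) (s + ((t : ℝ≥0) - s)) (ext01 x) = _
    rw [h2, ext01_coe, List.map_cons, List.prod_cons]
    rw [List.pairwise_cons] at hl
    rw [ih t (fun u hu => hl.1 u hu) hl.2]

lemma total_cons (p : ℝ≥0 × (ℝ → ℝ≥0∞)) (L : List (ℝ≥0 × (ℝ → ℝ≥0∞))) :
    total (p :: L) = p.1 + total L := by
  simp [total]

lemma total_mkL (φ : TT → ℝ → ℝ≥0∞) (l : List TT) : ∀ (s : ℝ≥0),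
    (∀ t ∈ l, s < t) → l.Pairwise (· < ·) → (1 : TT) ∈ l → s + total (mkL φ s l) = 1 := by
  induction l with
  | nil => intro s _ _ h; simp at h
  | cons t l ih =>
    intro s hs hl h1
    have h2 : s < t := hs t List.mem_cons_self
    have h3 : s + ((t : ℝ≥0) - s) = t := add_tsub_cancel_of_le h2.le
    rw [List.pairwise_cons] at hl
    rw [mkL, total_cons, ← add_assoc, h3]
    rcases List.mem_cons.1 h1 with h | h
    · have hl0 : l = [] := by
        rw [List.eq_nil_iff_forall_not_mem]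
        intro u hu
        have h4 := hl.1 u hu
        rw [← h] at h4
        exact absurd h4 (not_lt.2 u.2.2)
      rw [hl0, ← h]
      simp [mkL, total]
    · exact ih t (fun u hu => hl.1 u hu) hl.2 h

lemma good_mkL (φ : TT → ℝ → ℝ≥0∞) (hφ : ∀ t, Cb (φ t)) (l : List TT) : ∀ (s : ℝ≥0),
    (∀ t ∈ l, s < t) → l.Pairwise (· < ·) → Good (mkL φ s l) := by
  induction l with
  | nil => intro s _ _ p hp; simp [mkL] at hp
  | cons t l ih =>
    intro s hs hl p hp
    rw [List.pairwise_cons] at hl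
    rw [mkL] at hp
    rcases List.mem_cons.1 hp with h | h
    · rw [h]
      exact ⟨tsub_pos_of_lt (hs t List.mem_cons_self), hφ t⟩
    · exact ih t (fun u hu => hl.1 u hu) hl.2 p h

theorem t_CNV : S_CNV := by
  classical
  intro μ ν hμ hν hμ0 hν0 hL
  -- products over finite sets of times
  have claim : ∀ (J : Finset TT) (φ : TT → ℝ → ℝ≥0∞), (∀ t, Cb (φ t)) → (1 : TT) ∈ J →
      (0 : TT) ∉ J → ∫⁻ x, ∏ t ∈ J, φ t (x t) ∂μ = ∫⁻ x, ∏ t ∈ J, φ t (x t) ∂ν := by
    intro J φ hφ h1 h0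
    let l : List TT := J.sort (· ≤ ·)
    have hl : l.Pairwise (· < ·) := (Finset.sortedLT_sort J).pairwise
    have hmem : ∀ t, t ∈ l ↔ t ∈ J := fun t => Finset.mem_sort (· ≤ ·)
    have hs : ∀ t ∈ l, (0 : ℝ≥0) < t := by
      intro t ht
      refine pos_iff_ne_zero.2 (fun h => h0 ?_)
      have : t = 0 := Subtype.ext h
      rw [← this]
      exact (hmem t).1 ht
    have hprod : ∀ x : TT → ℝ, PP (mkL φ 0 l) 0 (ext01 x) = ∏ t ∈ J, φ t (x t) := by
      intro x
      rw [PP_mkL φ x l 0 hs hl, ← List.prod_toFinset _ (Finset.sort_nodup J _),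
        Finset.sort_toFinset]
    have h1l : (1 : TT) ∈ l := (hmem 1).2 h1
    have htot := total_mkL φ l 0 hs hl h1l
    rw [zero_add] at htot
    have hne : mkL φ 0 l ≠ [] := by
      intro h
      rw [h] at htot
      simp [total] at htot
    have h3 := hL (mkL φ 0 l) hne (good_mkL φ hφ l 0 hs hl) htot
    simpa only [hprod] using h3
  have claim2 : ∀ (I : Finset TT) (φ : TT → ℝ → ℝ≥0∞), (∀ t, Cb (φ t)) →
      (∀ t ∉ I, φ t = fun _ => 1) →
      ∫⁻ x, ∏ t ∈ I, φ t (x t) ∂μ = ∫⁻ x, ∏ t ∈ I, φ t (x t) ∂ν := by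
    intro I φ hφ hI
    have h01 : (0 : TT) ≠ 1 := by
      intro h
      have := congrArg (fun t : TT => (t : ℝ≥0)) h
      exact zero_ne_one this
    have hpt : ∀ x : TT → ℝ, x 0 = 0 →
        ∏ t ∈ I, φ t (x t) = φ 0 0 * ∏ t ∈ insert 1 (I.erase 0), φ t (x t) := by
      intro x hx
      rw [Finset.prod_insert_of_eq_one_if_notMem]
      · by_cases h0 : (0 : TT) ∈ I
        · rw [← Finset.mul_prod_erase I _ h0, hx]
        · rw [Finset.erase_eq_of_notMem h0, hI 0 h0, one_mul]
      · intro h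
        have h2 : (1 : TT) ∉ I := fun h3 => h (Finset.mem_erase.2 ⟨h01.symm, h3⟩)
        rw [hI 1 h2]
    have hc : φ 0 0 ≠ ∞ := by
      obtain ⟨C, hC⟩ := (hφ 0).2
      exact ne_top_of_le_ne_top ENNReal.coe_ne_top (hC 0)
    have hint : ∀ ρ : Measure (TT → ℝ), (∀ᵐ f ∂ρ, f 0 = 0) →
        ∫⁻ x, ∏ t ∈ I, φ t (x t) ∂ρ =
          φ 0 0 * ∫⁻ x, ∏ t ∈ insert 1 (I.erase 0), φ t (x t) ∂ρ := by
      intro ρ hρ
      rw [← lintegral_const_mul' _ _ hc]
      refine lintegral_congr_ae ?_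
      filter_upwards [hρ] with x hx
      exact hpt x hx
    rw [hint μ hμ0, hint ν hν0, claim (insert 1 (I.erase 0)) φ hφ (Finset.mem_insert_self _ _) ?_]
    intro h
    rcases Finset.mem_insert.1 h with h2 | h2
    · exact h01 h2
    · exact (Finset.mem_erase.1 h2).1 rfl
  -- finite marginals
  have hmarg : ∀ I : Finset TT, μ.map I.restrict = ν.map I.restrict := by
    intro I
    let G : (TT → ℝ) → (I → ℝ) × (Empty → ℝ) := fun x => (fun i => x i, fun e => e.elim)
    have hG : Measurable G := by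
      refine Measurable.prodMk ?_ ?_
      · exact measurable_pi_lambda _ (fun i => measurable_pi_apply _)
      · exact measurable_pi_lambda _ (fun e => e.elim)
    have hGeq : μ.map G = ν.map G := by
      have : IsFiniteMeasure (μ.map G) := inferInstance
      refine Measure.ext_of_lintegral_prod_mul_prod_boundedContinuousFunction (fun f g => ?_)
      let φ : TT → ℝ → ℝ≥0∞ := fun t y => if h : t ∈ I then ((f ⟨t, h⟩ y : ℝ≥0) : ℝ≥0∞) else 1
      have hφ : ∀ t, Cb (φ t) := by
        intro t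
        by_cases h : t ∈ I
        · have h1 : φ t = fun y => ((f ⟨t, h⟩ y : ℝ≥0) : ℝ≥0∞) := by
            funext y
            exact dif_pos h
          rw [h1]
          refine ⟨ENNReal.continuous_coe.comp (f ⟨t, h⟩).continuous, nndist (f ⟨t, h⟩) 0,
            fun x => ?_⟩
          exact ENNReal.coe_le_coe.2 (BoundedContinuousFunction.NNReal.upper_bound (f ⟨t, h⟩) x)
        · have h1 : φ t = fun _ => 1 := by
            funext y
            exact dif_neg h
          rw [h1]
          exact ⟨continuous_const, 1, fun x => by simp⟩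
      have hφI : ∀ t ∉ I, φ t = fun _ => 1 := by
        intro t ht
        funext y
        exact dif_neg ht
      have hval : ∀ p : (TT → ℝ), (∏ i : I, ((f i ((G p).1 i) : ℝ≥0) : ℝ≥0∞)) *
          ∏ j : Empty, ((g j ((G p).2 j) : ℝ≥0) : ℝ≥0∞) = ∏ t ∈ I, φ t (p t) := by
        intro p
        rw [← Finset.prod_coe_sort I (fun t => φ t (p t))]
        have h2 : ∏ j : Empty, ((g j ((G p).2 j) : ℝ≥0) : ℝ≥0∞) = 1 := by
          simp
        rw [h2, mul_one]
        refine Finset.prod_congr rfl (fun i _ => ?_)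
        show ((f i (p i) : ℝ≥0) : ℝ≥0∞) = φ i (p i)
        have h3 : φ i (p i) = ((f ⟨i, i.2⟩ (p i) : ℝ≥0) : ℝ≥0∞) := by
          simp only [φ]
          rw [dif_pos i.2]
        rw [h3]
      have hmeas : Measurable (fun p : (I → ℝ) × (Empty → ℝ) =>
          (∏ i : I, ((f i (p.1 i) : ℝ≥0) : ℝ≥0∞)) *
            ∏ j : Empty, ((g j (p.2 j) : ℝ≥0) : ℝ≥0∞)) := by
        refine Measurable.mul ?_ ?_
        · refine Finset.measurable_prod _ (fun i _ => ?_)
          exact ((f i).continuous.measurable.comp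
            ((measurable_pi_apply i).comp measurable_fst)).coe_nnreal_ennreal
        · refine Finset.measurable_prod _ (fun j _ => ?_)
          exact j.elim
      have h5 : ∀ ρ : Measure (TT → ℝ), ∫⁻ p, (∏ i : I, ((f i (p.1 i) : ℝ≥0) : ℝ≥0∞)) *
            ∏ j : Empty, ((g j (p.2 j) : ℝ≥0) : ℝ≥0∞) ∂(ρ.map G) =
          ∫⁻ x, ∏ t ∈ I, φ t (x t) ∂ρ := by
        intro ρ
        rw [lintegral_map hmeas hG]
        exact lintegral_congr (fun x => hval x)
      simp only [ENNReal.ofNNReal_finsetProd]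
      rw [h5 μ, h5 ν]
      exact claim2 I φ hφ hφI
    have h6 : I.restrict = (Prod.fst ∘ G : (TT → ℝ) → (I → ℝ)) := rfl
    rw [h6, ← Measure.map_map measurable_fst hG, ← Measure.map_map measurable_fst hG, hGeq]
  have h7 : IsProjectiveLimit μ (fun I : Finset TT => μ.map I.restrict) := fun I => rfl
  have h8 : IsProjectiveLimit ν (fun I : Finset TT => μ.map I.restrict) :=
    fun I => (hmarg I).symm
  exact h7.unique h8

end Pool.Agent.R883.BWCnv
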