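import Pool.Agent.R974.BW.Defs

/-!
Piece PRO of project BW (helper974): compactness.
-/

set_option autoImplicit false

namespace Pool.Agent.R883.BWPro

open MeasureTheory ProbabilityTheory Filter Topology Set
open Pool.Agent.R967.FB Pool.Agent.R974.BW
open scoped ENNReal NNReal BoundedContinuousFunction

lemma conv_of_tendsto {X : Type} [TopologicalSpace X] [MeasurableSpace X]
    [OpensMeasurableSpace X] {μs : ℕ → ProbabilityMeasure X} {ν : ProbabilityMeasure X}
    (h : Tendsto μs atTop (𝓝 ν)) (F : X → ℝ≥0∞) (hF : Continuous F) (c : ℝ≥0)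
    (hc : ∀ p, F p ≤ c) :
    Tendsto (fun n => ∫⁻ p, F p ∂(μs n : Measure X)) atTop (𝓝 (∫⁻ p, F p ∂(ν : Measure X))) := by
  have hne : ∀ p, F p ≠ ∞ := fun p => ne_top_of_le_ne_top ENNReal.coe_ne_top (hc p)
  have hcont : Continuous fun p => (F p).toNNReal :=
    ENNReal.continuousOn_toNNReal.comp_continuous hF hne
  let f : X →ᵇ ℝ≥0 := BoundedContinuousFunction.mkOfBound ⟨fun p => (F p).toNNReal, hcont⟩ c
    (by
      intro x y
      have h1 : ∀ z, (F z).toNNReal ≤ c := fun z => by
        have := ENNReal.toNNReal_mono ENNReal.coe_ne_top (hc z)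
        rwa [ENNReal.toNNReal_coe] at this
      have h2 : dist ((F x).toNNReal) ((F y).toNNReal) ≤ (c : ℝ) := by
        rw [NNReal.dist_eq, abs_sub_le_iff]
        have hx : ((F x).toNNReal : ℝ) ≤ c := by exact_mod_cast h1 x
        have hy : ((F y).toNNReal : ℝ) ≤ c := by exact_mod_cast h1 y
        have hx0 : (0 : ℝ) ≤ ((F x).toNNReal : ℝ) := NNReal.coe_nonneg _
        have hy0 : (0 : ℝ) ≤ ((F y).toNNReal : ℝ) := NNReal.coe_nonneg _
        constructor <;> linarith
      exact h2)
  have h3 := (ProbabilityMeasure.tendsto_iff_forall_lintegral_tendsto.1 h) f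
  have h4 : ∀ p, ((f p : ℝ≥0) : ℝ≥0∞) = F p := fun p => ENNReal.coe_toNNReal (hne p)
  simpa only [h4] using h3

theorem t_PRO : S_PRO := by
  intro W hW C Γ hΓ hfst hmean
  have hWp : IsProbabilityMeasure W := by
    rw [← hfst 0]
    have := hΓ 0
    exact Measure.isProbabilityMeasure_map measurable_fst.aemeasurable
  let μs : ℕ → ProbabilityMeasure (Pth × ℝ≥0) := fun n => ⟨Γ n, hΓ n⟩
  have htight : IsTightMeasureSet {((μ : ProbabilityMeasure (Pth × ℝ≥0)) :
      Measure (Pth × ℝ≥0)) | μ ∈ Set.range μs} := by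
    apply IsTightMeasureSet.prodMk
    · refine IsTightMeasureSet.subset (T := {W}) isTightMeasureSet_singleton ?_
      rintro _ ⟨_, ⟨_, ⟨n, rfl⟩, rfl⟩, rfl⟩
      exact hfst n
    · rw [isTightMeasureSet_iff_exists_isCompact_measure_compl_le]
      intro ε hε
      by_cases htop : ε = ⊤
      · exact ⟨∅, isCompact_empty, fun μ _ => by rw [htop]; exact le_top⟩
      · -- choose `r` with `C / r ≤ ε`
        have hεr : 0 < ε.toNNReal := ENNReal.toNNReal_pos hε.ne' htop
        let r : ℝ≥0 := C / ε.toNNReal + 1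
        have hr0 : (r : ℝ≥0∞) ≠ 0 := by
          rw [Ne, ENNReal.coe_eq_zero]
          exact (add_pos_of_nonneg_of_pos zero_le one_pos).ne'
        refine ⟨Icc 0 r, isCompact_Icc, ?_⟩
        rintro _ ⟨_, ⟨_, ⟨n, rfl⟩, rfl⟩, rfl⟩
        show (Measure.snd (Γ n)) (Icc 0 r)ᶜ ≤ ε
        rw [Measure.snd_apply measurableSet_Icc.compl]
        have h1 : (Prod.snd ⁻¹' (Icc 0 r)ᶜ : Set (Pth × ℝ≥0)) ⊆
            {p | (r : ℝ≥0∞) ≤ ((p.2 : ℝ≥0) : ℝ≥0∞)} := by
          intro p hp
          have h2 : ¬ (p.2 ≤ r) := fun h => hp ⟨zero_le, h⟩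
          exact ENNReal.coe_le_coe.2 (not_le.1 h2).le
        refine (measure_mono h1).trans ?_
        refine (meas_ge_le_lintegral_div ?_ hr0 ENNReal.coe_ne_top).trans ?_
        · exact (measurable_snd.coe_nnreal_ennreal).aemeasurable
        · refine (ENNReal.div_le_div_right (hmean n) _).trans ?_
          rw [← ENNReal.coe_div (by
            intro h0; exact hr0 (by rw [h0]; rfl)), ← ENNReal.coe_toNNReal htop,
            ENNReal.coe_le_coe]
          have hrpos : 0 < r := add_pos_of_nonneg_of_pos zero_le one_pos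
          rw [div_le_iff₀ hrpos]
          calc C = ε.toNNReal * (C / ε.toNNReal) := by
                rw [mul_div_cancel₀ _ hεr.ne']
            _ ≤ ε.toNNReal * r := by
                exact mul_le_mul_of_nonneg_left le_self_add zero_le
  have hcomp := isCompact_closure_of_isTightMeasureSet htight
  let _ : MetricSpace (Pth × ℝ≥0) := TopologicalSpace.metrizableSpaceMetric (Pth × ℝ≥0)
  obtain ⟨ν, -, k, hk, hlim⟩ := hcomp.tendsto_subseq (x := μs)
    (fun i => subset_closure (Set.mem_range_self i))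
  have hconv : ∀ F : Pth × ℝ≥0 → ℝ≥0∞, Continuous F → (∃ c : ℝ≥0, ∀ p, F p ≤ c) →
      Tendsto (fun n => ∫⁻ p, F p ∂(Γ (k n))) atTop (𝓝 (∫⁻ p, F p ∂(ν : Measure _))) := by
    rintro F hF ⟨c, hc⟩
    exact conv_of_tendsto hlim F hF c hc
  refine ⟨(ν : Measure _), k, inferInstance, ?_, ?_, hk, hconv⟩
  · -- first marginal
    have h2 := ProbabilityMeasure.tendsto_map_of_tendsto_of_continuous _ _ hlim
      (continuous_fst : Continuous (Prod.fst : Pth × ℝ≥0 → Pth))
    let Wp : ProbabilityMeasure Pth := ⟨W, hWp⟩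
    have h3 : ∀ n, ((μs ∘ k) n).map (f := Prod.fst) continuous_fst.measurable.aemeasurable =
        Wp := by
      intro n
      have h8 : (((μs ∘ k) n).map (f := Prod.fst) continuous_fst.measurable.aemeasurable :
          Measure Pth) = (Wp : Measure Pth) := by
        rw [ProbabilityMeasure.toMeasure_map]
        exact hfst (k n)
      exact Subtype.ext h8
    have h4 : Tendsto (fun _ : ℕ => Wp) atTop
        (𝓝 (ν.map (f := Prod.fst) continuous_fst.measurable.aemeasurable)) := by
      refine h2.congr (fun n => ?_)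
      exact h3 n
    have h5 := tendsto_nhds_unique h4 tendsto_const_nhds
    have h6 := congrArg (fun μ : ProbabilityMeasure Pth => (μ : Measure Pth)) h5
    simp only [ProbabilityMeasure.toMeasure_map] at h6
    exact h6
  · -- the mean
    have hmono : Tendsto (fun m : ℕ => ∫⁻ p, min ((p.2 : ℝ≥0) : ℝ≥0∞) (m : ℝ≥0∞)
        ∂(ν : Measure (Pth × ℝ≥0))) atTop
        (𝓝 (∫⁻ p, ((p.2 : ℝ≥0) : ℝ≥0∞) ∂(ν : Measure (Pth × ℝ≥0)))) := by
      refine lintegral_tendsto_of_tendsto_of_monotone ?_ ?_ ?_
      · intro m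
        exact ((measurable_snd.coe_nnreal_ennreal).min measurable_const).aemeasurable
      · refine ae_of_all _ (fun p a b hab => ?_)
        exact min_le_min le_rfl (by exact_mod_cast hab)
      · refine ae_of_all _ (fun p => ?_)
        refine tendsto_const_nhds.congr' ?_
        obtain ⟨m0, hm0⟩ := exists_nat_ge p.2
        filter_upwards [eventually_ge_atTop m0] with m hm
        symm
        apply min_eq_left
        have : p.2 ≤ (m : ℝ≥0) := hm0.trans (by exact_mod_cast hm)
        exact_mod_cast ENNReal.coe_le_coe.2 this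
    refine le_of_tendsto' hmono (fun m => ?_)
    have h7 := hconv (fun p => min ((p.2 : ℝ≥0) : ℝ≥0∞) (m : ℝ≥0∞))
      ((ENNReal.continuous_coe.comp continuous_snd).min continuous_const)
      ⟨(m : ℝ≥0), fun p => by
        simp⟩
    refine le_of_tendsto' h7 (fun n => ?_)
    exact (lintegral_mono (fun p => min_le_left _ _)).trans (hmean (k n))

end Pool.Agent.R883.BWPro
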